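import Pool.Agent.Lib.MP_a78e1f_lc.Base

/-!
# Statements of the modules, part 1: the random extension, preservation

The proofs are in `Paper.md`.
-/

universe u v w

open Cardinal Filter MeasureTheory

namespace Pool.Agent.Lib.MP_a78e1f_lc

open Pool.Agent.Lib.MP_100a6c_lc
open Pool.Agent.Lib.MP_c5d73d_lc.F (pr)
open Pool.Agent.Lib.MP_e6fef2_lc
open Pool.Agent.Lib.MP_6d445e_gt

/-! ## Measure theory -/

/-- CM: the measure of the Cantor space. -/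
def CmStatement : Prop := IsProbabilityMeasure cm ∧ (∀ x : Cs, cm {x} = 0) ∧
  (∀ σ : List Bool, cm {x | res x σ.length = σ} = ENNReal.ofReal ((1 / 2) ^ σ.length)) ∧
  (∀ σ : List Bool, MeasurableSet {x : Cs | res x σ.length = σ}) ∧
  (∀ (x : Cs) (n : ℕ), (res x n).length = n) ∧
  (∀ (x y : Cs) (n : ℕ), res x n = res y n ↔ ∀ i < n, x i = y i) ∧
  (∀ (x : Cs) (m n : ℕ), m ≤ n → res x m <+: res x n) ∧
  (∀ (x : Cs) (σ : List Bool) (n : ℕ), σ <+: res x n → res x σ.length = σ)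

/-- MEAS: measurability. -/
def MeasStatement : Prop := ∀ (A : Type u) [CompleteBooleanAlgebra A],
  (∀ E : Set (Pt A), MeasurableSet E → Measurable fun g : Ult A => cm.real (sec E g)) ∧
  (∀ P : Ult A → Prop, MeasurableSet {g | P g} → ∀ᶠ g in ae A, bv P ∈ g ↔ P g) ∧
  (∀ (X : ℕ → A) (E : Set (Pt A)), MeasurableSet E → MeasurableSet {g | (g, vx X g) ∈ E}) ∧
  (∀ a : A, MeasurableSet {p : Pt A | a ∈ p.1}) ∧
  (∀ σ : List Bool, MeasurableSet (cyl σ : Set (Pt A))) ∧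
  (∀ ε : List Bool → A, MeasurableSet (Kc ε)) ∧
  (∀ E : ℕ → Set (Pt A), (∀ n, nl (E n)) → nl (⋃ n, E n)) ∧
  (∀ (X : ℕ → A) (σ : List Bool) (g : Ult A), pre X σ ∈ g ↔ res (vx X g) σ.length = σ) ∧
  (∀ x y : ℕ → A, ∀ᶠ g in ae A, eqr x y ∈ g ↔ vx x g = vx y g)

/-- RAPI: the elements of `RA A` given by measurable sets. -/
def RapiStatement : Prop := ∀ (A : Type u) [CompleteBooleanAlgebra A],
  (∀ E F : Set (Pt A), MeasurableSet E → MeasurableSet F → (mkR E ≤ mkR F ↔ nl (E \ F))) ∧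
  (∀ E F : Set (Pt A), MeasurableSet E → MeasurableSet F → mkR (E ∩ F) = mkR E ⊓ mkR F) ∧
  (∀ E : Set (Pt A), MeasurableSet E → mkR Eᶜ = (mkR E)ᶜ) ∧
  (∀ E : ℕ → Set (Pt A), (∀ n, MeasurableSet (E n)) → mkR (⋃ n, E n) = ⨆ n, mkR (E n)) ∧
  mkR (Set.univ : Set (Pt A)) = ⊤ ∧ mkR (∅ : Set (Pt A)) = ⊥ ∧
  (∀ E : Set (Pt A), MeasurableSet E → (mkR E = ⊥ ↔ nl E)) ∧
  (∀ p : Po A, pr p = mkR p.1) ∧
  (∀ r : RA A, r ≠ ⊥ → ∃ p : Po A, mkR p.1 ≤ r) ∧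
  ∀ r : RA A, r = ⨆ p : {p : Po A // mkR p.1 ≤ r}, mkR p.1.1

/-- REG: measurable sets are approximated by open sets with a code. -/
def RegStatement : Prop := ∀ (A : Type u) [CompleteBooleanAlgebra A] (E : Set (Pt A)),
  MeasurableSet E → ∀ q : ℝ, 0 < q → ∃ ε : List Bool → A, Avd ε E ∧
    ∀ᶠ g in ae A, cm.real (sec ((Kc ε)ᶜ \ E) g) ≤ q

/-- MIX: mixtures of measurable sets. -/
def MixStatement : Prop := ∀ (A : Type u) [CompleteBooleanAlgebra A] (T : Type u) (a : T → A)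
  (E : T → Set (Pt A)), (∀ t t', t ≠ t' → a t ⊓ a t' = ⊥) → (∀ t, MeasurableSet (E t)) →
  ∃ F : Set (Pt A), MeasurableSet F ∧
    (∀ t, ∀ᶠ g in ae A, a t ∈ g → cm (sec (E t \ F) g) = 0 ∧ cm (sec (F \ E t) g) = 0) ∧
    ∀ᶠ g in ae A, (⨆ t, a t) ∉ g → sec F g = ∅

/-- RCC: suprema of families of measurable sets. -/
def RccStatement : Prop := ∀ (A : Type u) [CompleteBooleanAlgebra A] (T : Type u)
  (E : T → Set (Pt A)), (∀ t, MeasurableSet (E t)) → ∃ F : Set (Pt A), MeasurableSet F ∧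
    (∀ t, nl (E t \ F)) ∧ ∀ q : ℝ, 0 < q → ∀ a : A, a ≠ ⊥ → ∃ b, b ≠ ⊥ ∧ b ≤ a ∧
      ∃ s : Finset T, ∀ᶠ g in ae A, b ∈ g → cm.real (sec (F \ ⋃ t ∈ s, E t) g) < q

/-- REP: all elements of `RA A` are given by measurable sets. -/
def RepStatement : Prop := ∀ (A : Type u) [CompleteBooleanAlgebra A],
  (∀ r : RA A, MeasurableSet (rep r) ∧ mkR (rep r) = r) ∧
  (∀ E : Set (Pt A), MeasurableSet E → nl (rep (mkR E) \ E) ∧ nl (E \ rep (mkR E))) ∧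
  ∀ (T : Type u) (r : T → RA A) (q : ℝ), 0 < q → ∀ a : A, a ≠ ⊥ → ∃ b, b ≠ ⊥ ∧ b ≤ a ∧
    ∃ s : Finset T, ∀ᶠ g in ae A, b ∈ g → cm.real (sec (rep (⨆ t, r t) \ ⋃ t ∈ s, rep (r t)) g) < q

/-- KAP: the embedding of `A`. -/
def KapStatement : Prop := ∀ (A : Type u) [CompleteBooleanAlgebra A], IsCE (kap : A → RA A) ∧
  (∀ E : Set (Pt A), MeasurableSet E → prj kap (mkR E) = bv fun g => 0 < cm.real (sec E g)) ∧
  (∀ r : RA A, ∀ᶠ g in ae A, prj kap r ∈ g ↔ 0 < cm.real (sec (rep r) g)) ∧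
  (∀ (a : A) (E : Set (Pt A)), MeasurableSet E → kap a ⊓ mkR E = mkR {p | a ∈ p.1 ∧ p ∈ E}) ∧
  (∀ σ τ : List Bool, ¬ Cpb σ τ → (cy σ : RA A) ⊓ cy τ = ⊥) ∧
  (∀ σ τ : List Bool, σ <+: τ → (cy τ : RA A) ≤ cy σ) ∧
  (∀ (r : RA A) (n : ℕ), r = ⨆ σ : List Bool, ⨆ _ : σ.length = n, r ⊓ cy σ)

/-- RFM: the map `rmap f`. -/
def RfmStatement : Prop := ∀ (A C : Type u) [CompleteBooleanAlgebra A] [CompleteBooleanAlgebra C]
  (f : A → C), IsCE f → IsCE (rmap f) ∧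
  (∀ E : Set (Pt A), MeasurableSet E → MeasurableSet (pulls f E)) ∧
  (∀ E : Set (Pt A), MeasurableSet E → rmap f (mkR E) = mkR (pulls f E)) ∧
  (∀ E : Set (Pt A), nl E → nl (pulls f E)) ∧
  (∀ a, rmap f (kap a) = kap (f a)) ∧ (∀ σ, rmap f (cy σ) = cy σ) ∧
  (∀ (r : RA A) (q : ℝ), f (mq r q) = mq (rmap f r) q) ∧
  (∀ c : C, prj (rmap f) (kap c) = kap (prj f c)) ∧
  (∀ e : RA C, prj kap (prj (rmap f) e) = prj f (prj kap e)) ∧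
  (rmap (fun a : A => a) = fun r : RA A => r) ∧
  ∀ (B : Type u) [CompleteBooleanAlgebra B] (g : C → B), IsCE g →
    rmap (fun a => g (f a)) = fun r => rmap g (rmap f r)

/-- MQ: the values `mq r q`. -/
def MqStatement : Prop := ∀ (A : Type u) [CompleteBooleanAlgebra A],
  (∀ (r : RA A) (q : ℝ), ∀ᶠ g in ae A, mq r q ∈ g ↔ q < cm.real (sec (rep r) g)) ∧
  (∀ (r s : RA A) (q q' : ℝ), r ≤ s → q' ≤ q → mq r q ≤ mq s q') ∧
  (∀ (r s : RA A) (q q' : ℝ), mq (r ⊔ s) (q + q') ≤ mq r q ⊔ mq s q') ∧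
  (∀ (r : RA A) (a : A) (q : ℝ), 0 ≤ q → mq (kap a ⊓ r) q = a ⊓ mq r q) ∧
  (∀ r : RA A, (∀ q : ℝ, 0 < q → mq r q = ⊥) → r = ⊥) ∧
  (∀ q : ℝ, 0 ≤ q → mq (⊥ : RA A) q = ⊥) ∧
  (∀ r : RA A, prj kap r = ⨆ n : ℕ, mq r (1 / (n + 1))) ∧
  (∀ (T : Type u) (r : T → RA A) (q q' : ℝ), q' < q → ∀ a : A, a ≠ ⊥ → a ≤ mq (⨆ t, r t) q →
    ∃ b, b ≠ ⊥ ∧ b ≤ a ∧ ∃ s : Finset T, b ≤ mq (⨆ t ∈ s, r t) q')

/-- PIR: the map `piR f π`. -/
def PirStatement : Prop := ∀ (A C : Type u) [CompleteBooleanAlgebra A] [CompleteBooleanAlgebra C]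
  (f : A → C), IsCE f → ∀ π : C → A, AddM f π →
  (∀ (e : RA C) (r : RA A), r ⊓ piR f π e = ⊥ ↔
    ∀ q : ℝ, 0 < q → π (mq (e ⊓ rmap f r) q) = ⊥) ∧
  AddM (rmap f) (piR f π) ∧ (∀ c, piR f π (kap c) = kap (π c)) ∧
  (∀ (e : RA C) (d : C), piR f (fun c => π (c ⊓ d)) e = piR f π (e ⊓ kap d)) ∧
  (∀ e : RA C, piR f (prj f) e = prj (rmap f) e) ∧
  (∀ (e : RA C) (σ : List Bool), piR f π (e ⊓ cy σ) = piR f π e ⊓ cy σ) ∧
  (∀ (T : Type w) (π' : T → C → A), (∀ t, AddM f (π' t)) → (∀ c, π c ≤ ⨆ t, π' t c) →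
    ∀ e, piR f π e ≤ ⨆ t, piR f (π' t) e) ∧
  ∀ π' : C → A, AddM f π' → (∀ c, π' c ≤ π c) → ∀ e, piR f π' e ≤ piR f π e

/-- REGX: closed sets with a code below an element of `RA C`. -/
def RegxStatement : Prop := ∀ (A C : Type u) [CompleteBooleanAlgebra A]
  [CompleteBooleanAlgebra C] (f : A → C), IsCE f → ∀ π : C → A, AddM f π →
  ∀ (e : RA C) (E : Set (Pt C)), MeasurableSet E → e ⊓ mkR E = ⊥ →
    piR f π e ≤ ⨆ ε : List Bool → C, ⨆ _ : Avd ε E, piR f π (e ⊓ cl ε)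

/-! ## Evaluation at a random point -/

section

variable {A : Type u} [CompleteBooleanAlgebra A]

/-- The pair `(g, X)` is generic over `N` for the random extension. -/
structure EvG (N : Set El.{u}) (X : ℕ → A) (g : Ult A) : Prop where
  gn : gen A N ∈ g
  nul : ∀ E : Set (Pt A), In N E → MeasurableSet E → nl E → (g, vx X g) ∉ E
  rp : ∀ r : RA A, In N r → (ev X r ∈ g ↔ (g, vx X g) ∈ rep r)
  tp : ev X (⊤ : RA A) ∈ g
  bt : ev X (⊥ : RA A) ∉ g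
  inf : ∀ r s : RA A, In N r → In N s → (ev X (r ⊓ s) ∈ g ↔ ev X r ∈ g ∧ ev X s ∈ g)
  sup : ∀ r s : RA A, In N r → In N s → (ev X (r ⊔ s) ∈ g ↔ ev X r ∈ g ∨ ev X s ∈ g)
  cpl : ∀ r : RA A, In N r → (ev X rᶜ ∈ g ↔ ev X r ∉ g)
  mono : ∀ r s : RA A, In N r → In N s → r ≤ s → ev X r ∈ g → ev X s ∈ g
  kp : ∀ a : A, In N a → (ev X (kap a) ∈ g ↔ a ∈ g)
  iinf : ∀ r : ℕ → RA A, In N r → (ev X (⨅ n, r n) ∈ g ↔ ∀ n, ev X (r n) ∈ g)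
  isup : ∀ r : ℕ → RA A, In N r → (ev X (⨆ n, r n) ∈ g ↔ ∃ n, ev X (r n) ∈ g)
  cyl : ∀ σ : List Bool, ev X (cy σ) ∈ g ↔ res (vx X g) σ.length = σ

end

/-- EVX: evaluation of elements of `N`. -/
def EvxStatement : Prop := ∀ (A : Type u) [CompleteBooleanAlgebra A],
  (∀ᶠ N in club, ∀ X : ℕ → A, ∀ᶠ g in ae A, rn N X ∈ g ↔
    (gen A N ∈ g ∧ ∀ E : Set (Pt A), In N E → MeasurableSet E → nl E → (g, vx X g) ∉ E)) ∧
  (∀ᶠ N in club, ∀ X : ℕ → A, ∀ᶠ g in ae A, rn N X ∈ g → EvG N X g) ∧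
  ∀ T : Type u, ∀ᶠ N in club, ∀ X : ℕ → A, ∀ᶠ g in ae A, rn N X ∈ g →
    ∀ φ : T → RA A, In N φ → ev X (⨆ t, φ t) ∈ g → ∃ t, In N t ∧ ev X (φ t) ∈ g

/-- EVF: evaluation in an extension. -/
def EvfStatement : Prop := ∀ (A C : Type u) [CompleteBooleanAlgebra A]
  [CompleteBooleanAlgebra C] (f : A → C), IsCE f → ∀ᶠ N in club, ∀ X : ℕ → A,
  rn N (fun n => f (X n)) ≤ f (rn N X) ∧
  (∀ r : RA A, In N r → ∀ᶠ h in ae C, rn N (fun n => f (X n)) ∈ h →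
    (ev (fun n => f (X n)) (rmap f r) ∈ h ↔ f (ev X r) ∈ h)) ∧
  ∀ (n : ℕ) (x : ℕ → RA A) (Y : ℕ → A), In N x →
    rn N (fun n => f (X n)) ⊓ disX n (fun k => rmap f (x k)) (fun n => f (Y n)) (fun n => f (X n)) =
      rn N (fun n => f (X n)) ⊓ f (disX n x Y X)

/-- RSEL: existence of random points over `N`. -/
def RselStatement : Prop := ∀ (A : Type u) [CompleteBooleanAlgebra A], ∀ᶠ N in club,
  ∃ X : ℕ → A, gen A N ≤ rn N X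

/-- DIX: the values `disX` and `gcX` pointwise. -/
def DixStatement : Prop := ∀ (A : Type u) [CompleteBooleanAlgebra A],
  (∀ (n : ℕ) (x : ℕ → RA A) (Y X : ℕ → A), ∀ᶠ g in ae A, disX n x Y X ∈ g ↔
    ∀ p, n ≤ p → ∀ i, ev X (x (Nat.pair p i)) ∈ g → Y (Nat.pair p i) ∉ g) ∧
  (∀ N : Set El.{u}, N.Countable → ∀ X Y : ℕ → A, ∀ᶠ g in ae A, gcX N X Y ∈ g ↔
    rn N X ∈ g ∧ cut Y ∈ g ∧ ∀ x : ℕ → RA A, In N x → Sl x → ∃ n, disX n x Y X ∈ g) ∧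
  ∀ (N : Set El.{u}) (X Y Y' : ℕ → A), (∀ n, Y' n ≤ Y n) → gcX N X Y ≤ gcX N X Y'

/-- VER: the verification of genericity and randomness at the end of a fusion. -/
def VerStatement : Prop := ∀ (C : Type u) [CompleteBooleanAlgebra C], ∀ᶠ N in club,
  ∀ X : ℕ → C, ∀ᶠ h in ae C, ∀ e : ℕ → RA C, (∀ n, In N (e n)) → (∀ n, e (n + 1) ≤ e n) →
    (∀ E : Set (Pt C), In N E → MeasurableSet E → nl E →
      ∃ n, ∃ ε : List Bool → C, In N ε ∧ Avd ε E ∧ e n ≤ cl ε) →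
    (∀ n, ∃ k, ∃ ε : List Bool → C, In N ε ∧ Avd ε (rep (e n))ᶜ ∧ e k ≤ cl ε) →
    (∀ D : Set C, In N D → sSup D = ⊤ → ∃ n, ∃ d ∈ D, In N d ∧ d ∈ h ∧ e n ≤ kap d) →
    (∀ n k, e n ⊓ cy (res (vx X h) k) ≠ ⊥) →
      rn N X ∈ h ∧ ∀ n, ev X (e n) ∈ h

/-- SEQX: the sequence lemma. -/
def SeqxStatement : Prop := ∀ (A T : Type u) [CompleteBooleanAlgebra A], ∀ᶠ N in club,
  ∀ (w : ℕ → T → RA A) (b : ℕ → T → ℕ → RA A) (z : ℕ → RA A) (r : ℕ → ℕ), In N w → In N b →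
    In N z → (∀ k t, w k t ≤ agr (fun a : RA A => a) z (b k t) k) →
    (∀ k t, SlOn r (w k t) (b k t)) →
    ∀ X Y : ℕ → A, ∀ᶠ g in ae A, gcX N X Y ∈ g → disX 0 z Y X ∈ g →
      (∀ k, ev X (⨆ t, w k t) ∈ g) →
      ∀ m, ∃ k, m ≤ k ∧ ∃ t, In N t ∧ ev X (w k t) ∈ g ∧ disX 0 (b k t) Y X ∈ g

/-- PRXC: composition. -/
def PrxcStatement : Prop := ∀ (A B C : Type u) [CompleteBooleanAlgebra A]
  [CompleteBooleanAlgebra B] [CompleteBooleanAlgebra C] (f : A → B) (g : B → C), IsCE f → IsCE g →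
  PRX f → PRX g → PRX (fun a => g (f a))

/-- PRXI: isomorphisms. -/
def PrxiStatement : Prop := ∀ (A B : Type u) [CompleteBooleanAlgebra A]
  [CompleteBooleanAlgebra B] (f : A → B), IsCE f → Function.Surjective f → PRX f

/-- PRXE: `PRX` implies properness. -/
def PrxeStatement : Prop := ∀ (A B : Type u) [CompleteBooleanAlgebra A]
  [CompleteBooleanAlgebra B] (f : A → B), IsCE f → PRX f → PE f

/-- PRXLIM: preservation at limits. -/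
def PrxlimStatement : Prop := ∀ (L : Type u) [LinearOrder L] (A : L → Type u)
  [∀ i, CompleteBooleanAlgebra (A i)] (f : ∀ i j, A i → A j) (C : Type u)
  [CompleteBooleanAlgebra C] (e : ∀ i, A i → C), IsCh A f → IsTop A f e → TP A f e → DP A e →
  (∀ i j, i ≤ j → PRX (f i j)) → ∀ i, PRX (e i)

end Pool.Agent.Lib.MP_a78e1f_lc
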